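import Pool.Agent.H98.BQ.Tor

/-!
# Closed subtori of codimension `O(log^2(1/α) log log(1/α))` in `3A - 3A`, hence in `10A - 10A`
-/

set_option autoImplicit false

namespace Pool.Agent.Results.MP_a4e7e3_co.SubtoriInThreefoldSums

/-- There is a constant `C` such that for every `d` and every open set `A` in the `d`-torus of
measure `α > 0` there is a closed subtorus (the image of an `m`-torus under an injective continuous
homomorphism) of codimension `d - m ≤ C L^2 (1 + log L)`, `L = 1 + log (1/α)`, which is contained in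
`kA - kA` for every `k ≥ 3`, in particular in `10A - 10A`. -/
theorem result : ∃ C : ℝ, 0 < C ∧ ∀ (d : ℕ) (A : Set (Fin d → UnitAddCircle)),
    IsOpen A → 0 < MeasureTheory.volume A →
    ∃ (m : ℕ) (φ : (Fin m → UnitAddCircle) →+ (Fin d → UnitAddCircle)),
      Continuous φ ∧ Function.Injective φ ∧
      (d : ℝ) - m ≤ C * ((1 + Real.log (1 / (MeasureTheory.volume A).toReal)) ^ 2 *
        (1 + Real.log (1 + Real.log (1 / (MeasureTheory.volume A).toReal)))) ∧
      ∀ k : ℕ, 3 ≤ k → Set.range φ ⊆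
        {x | ∃ a b : Fin k → (Fin d → UnitAddCircle),
          (∀ i, a i ∈ A) ∧ (∀ i, b i ∈ A) ∧ x = (∑ i, a i) - (∑ i, b i)} := by
  obtain ⟨C, hC, h⟩ := Pool.Agent.H98.BQ.torus Pool.Agent.H98.TO.ta Pool.Agent.H98.TO.tc
    Pool.Agent.H98.TO.td Pool.Agent.H98.TO.te Pool.Agent.H98.BQ.fgdMain
  refine ⟨C, hC, ?_⟩
  intro d A hA hpos
  obtain ⟨m, φ, h1, h2, h3, h4⟩ := h d A hA hpos
  refine ⟨m, φ, h1, h2, h3, ?_⟩
  intro k hk x hx
  obtain ⟨a, b, ha, hb, hab⟩ := h4 hx
  obtain ⟨j, rfl⟩ : ∃ j, k = 3 + j := ⟨k - 3, by omega⟩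
  refine ⟨Fin.append a (fun _ : Fin j => a 0), Fin.append b (fun _ : Fin j => a 0), ?_, ?_, ?_⟩
  · intro i
    refine Fin.addCases (fun i => ?_) (fun i => ?_) i
    · rw [Fin.append_left]; exact ha i
    · rw [Fin.append_right]; exact ha 0
  · intro i
    refine Fin.addCases (fun i => ?_) (fun i => ?_) i
    · rw [Fin.append_left]; exact hb i
    · rw [Fin.append_right]; exact ha 0
  · rw [Fin.sum_univ_add, Fin.sum_univ_add]
    simp only [Fin.append_left, Fin.append_right]
    rw [hab]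
    abel

end Pool.Agent.Results.MP_a4e7e3_co.SubtoriInThreefoldSums
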